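import Pool.Agent.N748.GC.Fin
import Pool.Agent.N748.GC.AS
import Pool.Agent.N748.GC.RM

set_option autoImplicit false

/-!
# Convergence of the moment measures of zeta near the critical line to multiplicative chaos
-/

namespace Pool.Agent.Results.MP_9eae41_pr.RandomMeasuresNearLine

open MeasureTheory Filter Topology

/-- the measure `g(x) dx` on the unit interval (zero if it is not finite) -/
noncomputable def density (g : ℝ → ℝ) : FiniteMeasure unitInterval :=
  open Classical in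
  if h : IsFiniteMeasure ((volume : Measure unitInterval).withDensity fun x => ENNReal.ofReal (g x)) then ⟨_, h⟩
  else 0

/-- the law of independent uniform phases, one for every integer (only the prime ones are used) -/
noncomputable def P : Measure (ℕ → UnitAddCircle) :=
  Measure.infinitePi fun _ : ℕ => (AddCircle.haarAddCircle (T := (1:ℝ)))

/-- the random Euler product over the primes `p < N` at `1/2 + ix` -/
noncomputable def zrand (N : ℕ) (w : ℕ → UnitAddCircle) (x : ℝ) : ℂ :=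
  ∏ p ∈ (Finset.range N).filter Nat.Prime, (1 - (fourier 1 (w p) : ℂ) * ((p:ℕ):ℂ) ^ (-(1 / 2 + x * Complex.I)))⁻¹

/-- the random measures of the model, `|zrand|^β / E |zrand|^β dx` -/
noncomputable def model (β : ℝ) (N : ℕ) (w : ℕ → UnitAddCircle) : FiniteMeasure unitInterval :=
  density fun x => ‖zrand N w x‖ ^ β / ∫ w', ‖zrand N w' x‖ ^ β ∂P

/-- `l` is the almost sure weak limit of the random measures of the model -/
def IsChaos (β : ℝ) (l : (ℕ → UnitAddCircle) → FiniteMeasure unitInterval) : Prop :=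
  ∀ᵐ w ∂P, Tendsto (fun N : ℕ => model β N w) atTop (𝓝 (l w))

/-- the arithmetic factor of the moment conjecture,
`a(k) = ∏_p (1 - 1/p)^{k²} Σ_m (k (k+1) ... (k+m-1) / m!)² p^{-m}` -/
noncomputable def ak (k : ℝ) : ℝ :=
  ∏' p : Nat.Primes, ((1 - 1 / (p : ℝ)) ^ (k ^ 2) *
    ∑' m : ℕ, (∏ i ∈ Finset.range m, (k + i) / ((i : ℝ) + 1)) ^ 2 * (1 / (p : ℝ)) ^ m)

/-- the moment measure of zeta at distance `d` from the critical line and height `t`:
`(2d)^{β²/4} |ζ(1/2+d+i(t+x))|^β dx` on the unit interval -/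
noncomputable def ν (β d t : ℝ) : FiniteMeasure unitInterval :=
  density fun x => (2 * d) ^ (β ^ 2 / 4) * ‖riemannZeta (1 / 2 + d + (t + x : ℝ) * Complex.I)‖ ^ β

open Pool.Agent.N748.GC in
lemma norm_at {α : ℝ} (z : ℕ) (x : ℝ) : ∫ w', ‖EO z w' x‖ ^ (2 * α) ∂PO = E0 α (Sm z) := by
  simp_rw [RZ.EO_norm]
  have hc : Continuous fun x : UnitAddTorus (Sm z) => Real.exp (∑ p : Sm z, lw α p (x p)) := by
    refine Real.continuous_exp.comp ?_
    refine continuous_finsetSum _ fun p _ => ?_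
    exact (RZ.lw_cont α (RZ.Sm_prime z p p.2)).comp (continuous_apply p)
  have h := RZ.int_restr_add (Sm z) _ hc (pt (Sm z) x)
  rw [RZ.int_exp_eq] at h
  exact h

open Pool.Agent.N748.GC in
lemma model_eq (β : ℝ) (N : ℕ) (w : ℕ → UnitAddCircle) : model β N w = fm (rz (β / 2) N w) := by
  have h1 : ∀ x : ℝ, ‖zrand N w x‖ ^ β / ∫ w', ‖zrand N w' x‖ ^ β ∂P = rz (β / 2) N w x := by
    intro x
    unfold rz
    rw [norm_at, show 2 * (β / 2) = β by ring, ← norm_at N x, show 2 * (β / 2) = β by ring]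
    rfl
  show fm (fun x => ‖zrand N w x‖ ^ β / ∫ w', ‖zrand N w' x‖ ^ β ∂P) = _
  congr 1
  funext x
  exact h1 x

open Pool.Agent.N748.GC in
lemma Z_eq {β : ℝ} (h0 : 0 < β) (d u : ℝ) : (2 * d) ^ (β ^ 2 / 4) * ‖riemannZeta (1 / 2 + d + u * Complex.I)‖ ^ β =
    ((ak (β / 2)).toNNReal : ℝ) * Zn (β / 2) d u := by
  have ha : 0 < ak (β / 2) := Pool.Agent.H306R2.aF_pos (by linarith)
  rw [Real.coe_toNNReal _ ha.le]
  have e : Zn (β / 2) d u = (2 * d) ^ (β ^ 2 / 4) / ak (β / 2) * ‖riemannZeta (1 / 2 + d + u * Complex.I)‖ ^ β := by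
    unfold Zn ak aa lc
    rw [show (β / 2) ^ 2 = β ^ 2 / 4 by ring, show 2 * (β / 2) = β by ring]
  rw [e]
  field_simp

open Pool.Agent.N748.GC in
lemma fm_smul {g : ℝ → ℝ} (hg : Continuous g) (c : NNReal) : fm (fun x => (c:ℝ) * g x) = c • fm g := by
  apply Subtype.ext
  have h1 := RM.fm_coe (g := fun x => (c:ℝ) * g x) (continuous_const.mul hg)
  have h2 := RM.fm_coe hg
  show ((fm fun x => (c:ℝ) * g x : FiniteMeasure unitInterval) : Measure unitInterval) =
    ((c • fm g : FiniteMeasure unitInterval) : Measure unitInterval)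
  rw [h1, FiniteMeasure.toMeasure_smul, h2]
  have h3 : (fun x : unitInterval => ENNReal.ofReal ((c:ℝ) * g x)) =
      (c : ENNReal) • (fun x : unitInterval => ENNReal.ofReal (g x)) := by
    funext x
    show ENNReal.ofReal ((c:ℝ) * g x) = (c : ENNReal) * ENNReal.ofReal (g x)
    rw [ENNReal.ofReal_mul c.coe_nonneg, ENNReal.ofReal_coe_nnreal]
  have hm : Measurable fun x : unitInterval => ENNReal.ofReal (g x) :=
    (hg.comp continuous_subtype_val).measurable.ennreal_ofReal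
  rw [h3, withDensity_smul _ hm]
  rfl

open Pool.Agent.N748.GC in
theorem result (β : ℝ) (h0 : 0 < β) (h2 : β < 2) :
    0 < ak (β / 2) ∧ ∃ l : (ℕ → UnitAddCircle) → FiniteMeasure unitInterval, IsChaos β l ∧
      ∫ w, ((l w).mass : ℝ) ∂P = 1 ∧ (¬ ∃ c : ℝ, ∀ᵐ w ∂P, ((l w).mass : ℝ) = c) ∧
      ∀ d : ℝ → ℝ, Tendsto d atTop (𝓝 0) → Tendsto (fun T : ℝ => d T * Real.log T) atTop atTop →
        ∀ G : BoundedContinuousFunction (FiniteMeasure unitInterval) ℝ,
        Tendsto (fun T : ℝ => (1 / T) * ∫ t in (0:ℝ)..T, G (ν β (d T) t)) atTop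
          (𝓝 (∫ w, G ((ak (β / 2)).toNNReal • l w) ∂P)) := by
  have hb0 : 0 < β / 2 := by linarith
  have hb1 : β / 2 < 1 := by linarith
  have ha : 0 < ak (β / 2) := Pool.Agent.H306R2.aF_pos hb0
  refine ⟨ha, ?_⟩
  obtain ⟨M, hM⟩ := AS.main (β / 2) hb0
  obtain ⟨Λ, hΛ⟩ := LAM.main coreF ERG.main RZ.main (β / 2) hb0 hb1
  have hident := RM.ident RZ.main hb0 hΛ hM (1 : C(unitInterval, ℝ))
  have hmass : ∀ᵐ w ∂PO, ((M w).mass : ℝ) = Λ (fun _ => 1) w := by
    filter_upwards [hident] with w hw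
    have e1 : RM.ex 1 = fun _ => (1:ℝ) := by funext x; rfl
    rw [e1] at hw
    rw [← hw]
    simp only [ContinuousMap.one_apply, integral_const, smul_eq_mul, mul_one]
    rfl
  refine ⟨M, ?_, ?_, ?_, ?_⟩
  · show ∀ᵐ w ∂PO, Tendsto (fun N : ℕ => model β N w) atTop (𝓝 (M w))
    filter_upwards [hM] with w hw
    simp only [model_eq]
    exact hw
  · show ∫ w, ((M w).mass : ℝ) ∂PO = 1
    rw [integral_congr_ae hmass, (hΛ (fun _ => 1) continuous_const).2.2.1]
    simp
  · rintro ⟨c, hc⟩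
    refine NC.main RZ.main (β / 2) hb0 hb1 Λ hΛ ⟨c, ?_⟩
    have hc' : ∀ᵐ w ∂PO, ((M w).mass : ℝ) = c := hc
    filter_upwards [hc', hmass] with w h1 h2
    rw [← h2, h1]
  · intro d hd hdL G
    have hP : Pd d := ⟨hd, hdL⟩
    obtain ⟨c, hc⟩ : ∃ c : NNReal, c = (ak (β / 2)).toNNReal := ⟨_, rfl⟩
    have hcs : Continuous fun μ : FiniteMeasure unitInterval => c • μ := by fun_prop
    have h3 : Tendsto (fun T : ℝ => (1 / T) * ∫ t in (0:ℝ)..T, G (c • fm fun x => Zn (β / 2) (d T) (t + x))) atTop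
        (𝓝 (∫ w, G (c • M w) ∂PO)) :=
      (RM.main coreF ERG.main RZ.main (β / 2) hb0 hb1 M hM d hP
        (G.compContinuous ⟨fun μ : FiniteMeasure unitInterval => c • μ, hcs⟩)).2
    have h4 : ∀ e t : ℝ, e ≤ 1 / 4 → (c • fm fun x => Zn (β / 2) e (t + x)) = ν β e t := by
      intro e t he
      have hZc : Continuous fun x : ℝ => Zn (β / 2) e (t + x) :=
        (Zn_cont' hb0 (by linarith)).comp (by fun_prop)
      rw [← fm_smul hZc]
      have h5 : (fun x : ℝ => (c:ℝ) * Zn (β / 2) e (t + x)) = fun x : ℝ =>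
          (2 * e) ^ (β ^ 2 / 4) * ‖riemannZeta (1 / 2 + e + (t + x : ℝ) * Complex.I)‖ ^ β := by
        funext x
        rw [hc, ← Z_eq h0]
      rw [h5]
      rfl
    rw [← hc]
    have h6 : ∀ᶠ T : ℝ in atTop, (1 / T) * ∫ t in (0:ℝ)..T, G (c • fm fun x => Zn (β / 2) (d T) (t + x)) =
        (1 / T) * ∫ t in (0:ℝ)..T, G (ν β (d T) t) := by
      filter_upwards [hd.eventually_le_const (show (0:ℝ) < 1 / 4 by norm_num)] with T hT
      simp only [h4 _ _ hT]
    exact h3.congr' h6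

end Pool.Agent.Results.MP_9eae41_pr.RandomMeasuresNearLine
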